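import Pool.Agent.L7h32.OS.Stm

/-!
# Project OS: KEY, every compact piece contains a point with nonpositive partial derivatives
-/

set_option autoImplicit false

namespace Pool.Agent.L7h24.OS

open Pool.Agent.L7h32.OS

lemma strict_of_pos (P : Polynomial ℝ) (a b : ℝ) (h : ∀ t ∈ Set.Ioo a b, 0 < P.derivative.eval t) :
    StrictMonoOn (fun t => P.eval t) (Set.Icc a b) := by
  apply strictMonoOn_of_deriv_pos (convex_Icc a b) P.continuous.continuousOn
  intro t ht
  rw [interior_Icc] at ht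
  rw [Polynomial.deriv]
  exact h t ht

theorem s_KEY (hLOC : S_LOC) : S_KEY := by
  intro P Q K _ hK
  obtain ⟨hne, hcomp, hsub, hcl⟩ := id hK
  by_contra hcon
  have cQ : Continuous fun p : ℝ × ℝ => Q.derivative.eval p.2 :=
    Q.derivative.continuous.comp continuous_snd
  have hstar : ∀ p ∈ K, Q.derivative.eval p.2 ≤ 0 → 0 < P.derivative.eval p.1 := by
    intro p hp hq
    by_contra h
    exact hcon ⟨p, hp, not_lt.1 h, hq⟩
  obtain ⟨E, hE⟩ : ∃ E : Set (ℝ × ℝ), E = K ∩ {p | Q.derivative.eval p.2 ≤ 0} := ⟨_, rfl⟩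
  have hEc : IsCompact E := by
    rw [hE]
    exact hcomp.inter_right (isClosed_le cQ continuous_const)
  have hEne : E.Nonempty := by
    obtain ⟨p, hp, hmax⟩ := hcomp.exists_isMaxOn hne continuous_fst.continuousOn
    rw [hE]
    refine ⟨p, hp, ?_⟩
    by_contra h
    have hq : Q.derivative.eval p.2 ≠ 0 := fun h0 => h (le_of_eq h0)
    obtain ⟨ε, hε, h1⟩ := (hLOC P Q K hK p hp).2 hq 1 one_pos
    obtain ⟨y, _, hy⟩ := h1 (p.1 + ε / 2) (by
      rw [add_sub_cancel_left, abs_of_pos (by linarith)]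
      linarith)
    have h2 : (p.1 + ε / 2, y).1 ≤ p.1 := hmax hy
    have h3 : p.1 + ε / 2 ≤ p.1 := h2
    linarith
  obtain ⟨e, heE, hemax⟩ := hEc.exists_isMaxOn hEne continuous_snd.continuousOn
  obtain ⟨y0, hy0⟩ : ∃ y0, y0 = e.2 := ⟨_, rfl⟩
  have hmaxE : ∀ x y : ℝ, (x, y) ∈ K → Q.derivative.eval y ≤ 0 → y ≤ y0 := by
    intro x y hp hq
    have h1 : (x, y) ∈ E := by
      rw [hE]
      exact ⟨hp, hq⟩
    have h2 : (x, y).2 ≤ e.2 := hemax h1
    rw [hy0]
    exact h2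
  have hE0c : IsCompact (E ∩ {p | p.2 = y0}) :=
    hEc.inter_right (isClosed_eq continuous_snd continuous_const)
  obtain ⟨⟨x0, y0'⟩, ⟨hp0, hp0'⟩, hmin⟩ :=
    hE0c.exists_isMinOn ⟨e, heE, hy0.symm⟩ continuous_fst.continuousOn
  have hy0' : y0' = y0 := hp0'
  subst hy0'
  rw [hE] at hp0
  obtain ⟨hp0K, hp0Q⟩ := hp0
  have hq0 : Q.derivative.eval y0' ≤ 0 := hp0Q
  have hminE : ∀ x : ℝ, (x, y0') ∈ K → x0 ≤ x := by
    intro x hx
    have h1 : (x, y0') ∈ E ∩ {p | p.2 = y0'} := by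
      rw [hE]
      exact ⟨⟨hx, hq0⟩, rfl⟩
    exact hmin h1
  have hP0 : 0 < P.derivative.eval x0 := hstar _ hp0K hq0
  -- a neighbourhood with positive derivative
  obtain ⟨δ, hδ, hPδ⟩ : ∃ δ > 0, ∀ t, |t - x0| < δ → 0 < P.derivative.eval t := by
    have h1 : ∀ᶠ t in nhds x0, 0 < P.derivative.eval t :=
      (P.derivative.continuous.tendsto x0).eventually (lt_mem_nhds hP0)
    obtain ⟨δ, hδ, h2⟩ := Metric.eventually_nhds_iff.1 h1
    exact ⟨δ, hδ, fun t ht => h2 (by rw [Real.dist_eq]; exact ht)⟩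
  -- step 1
  obtain ⟨x1, y1, h1K, hx1, hy1⟩ : ∃ x y : ℝ, (x, y) ∈ K ∧ x < x0 ∧ y0' ≤ y := by
    obtain ⟨ε, hε, h1⟩ := (hLOC P Q K hK _ hp0K).1 hP0.ne' δ hδ
    have h2 : ∀ y, y0' < y → y < y0' + ε → 0 < Q.derivative.eval y := by
      intro y ha hb
      by_contra h
      obtain ⟨x, _, hx⟩ := h1 y (by
        change |y - y0'| < ε
        rw [abs_of_pos (by linarith)]
        linarith)
      have := hmaxE x y hx (not_lt.1 h)
      linarith
    have h3 := strict_of_pos Q y0' (y0' + ε / 2) (fun t ht => h2 t ht.1 (by linarith [ht.2]))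
    have h4 : Q.eval y0' < Q.eval (y0' + ε / 2) :=
      h3 (Set.left_mem_Icc.2 (by linarith)) (Set.right_mem_Icc.2 (by linarith)) (by linarith)
    obtain ⟨x, hx, hxK⟩ := h1 (y0' + ε / 2) (by
        change |y0' + ε / 2 - y0'| < ε
        rw [add_sub_cancel_left, abs_of_pos (by linarith)]
        linarith)
    refine ⟨x, y0' + ε / 2, hxK, ?_, by linarith⟩
    by_contra hlt
    have hxx : x0 ≤ x := not_lt.1 hlt
    have hx' : |x - x0| < δ := hx
    have h5 := strict_of_pos P x0 x (fun t ht => hPδ t (by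
      rw [abs_of_pos (by linarith [ht.1])]
      rw [abs_of_nonneg (by linarith)] at hx'
      linarith [ht.2]))
    have h6 : P.eval x0 ≤ P.eval x := h5.monotoneOn (Set.left_mem_Icc.2 hxx) (Set.right_mem_Icc.2 hxx) hxx
    have h7 : P.eval x + Q.eval (y0' + ε / 2) = 0 := hsub hxK
    have h8 : P.eval x0 + Q.eval y0' = 0 := hsub hp0K
    linarith
  -- step 2
  have hGc : IsCompact (K ∩ {p : ℝ × ℝ | y0' ≤ p.2 ∧ p.1 ≤ x0}) := by
    apply hcomp.inter_right
    exact (isClosed_le continuous_const continuous_snd).inter (isClosed_le continuous_fst continuous_const)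
  obtain ⟨⟨u, v⟩, ⟨huK, huv⟩, humin⟩ :=
    hGc.exists_isMinOn ⟨(x1, y1), h1K, hy1, hx1.le⟩ continuous_fst.continuousOn
  have hv0 : y0' ≤ v := huv.1
  have hmin' : ∀ x y : ℝ, (x, y) ∈ K → y0' ≤ y → x ≤ x0 → u ≤ x := by
    intro x y h1 h2 h3
    have h4 : (x, y) ∈ K ∩ {p : ℝ × ℝ | y0' ≤ p.2 ∧ p.1 ≤ x0} := ⟨h1, h2, h3⟩
    exact humin h4
  have hu : u < x0 := lt_of_le_of_lt (hmin' x1 y1 h1K hy1 hx1.le) hx1
  have hv : y0' < v := by
    rcases hv0.lt_or_eq with h | h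
    · exact h
    · exfalso
      rw [← h] at huK
      have := hminE u huK
      linarith
  have hQv : 0 < Q.derivative.eval v := by
    by_contra h
    have := hmaxE u v huK (not_lt.1 h)
    linarith
  obtain ⟨ε, hε, h1⟩ := (hLOC P Q K hK _ huK).2 hQv.ne' (v - y0') (by linarith)
  obtain ⟨y, hy, hyK⟩ := h1 (u - ε / 2) (by
    change |u - ε / 2 - u| < ε
    rw [show u - ε / 2 - u = -(ε / 2) by ring, abs_neg, abs_of_pos (by linarith)]
    linarith)
  have hy' : |y - v| < v - y0' := hy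
  have h2 := (abs_lt.1 hy').1
  have := hmin' (u - ε / 2) y hyK (by linarith) (by linarith)
  linarith

end Pool.Agent.L7h24.OS
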